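import Pool.Agent.U707.PT.Glob

/-!
# Varieties with known numbers of points: the exact `L`-functions

`X` is a smooth projective variety over `ℚ` of dimension `d`, `H_i` its `ℓ`-adic cohomology
groups, `pts q` the number of points of (a model of) `X` modulo `q`, and `W_j` are finitely many
systems of `ℓ`-adic representations of the Galois group of `ℚ`, pure of weight `w_j`, with integers
`c_j`, such that `pts q = ∑ (-1) ^ w_j c_j tr(Frob_q | W_j)` for all primes `q` outside of a set of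
density zero. At every prime `p` the `W_j` have local factors `R_{j,p}` in `ℚ[T]` independent
of `ℓ`, and those with `c_j > 0` satisfy the monodromy-weight conjecture. Then for all `i`
and at EVERY prime `p` the monodromy-weight conjecture holds for `H^i(X)`, and the local factor of
`H^i(X)` is a rational polynomial, the same for all `ℓ ≠ p`, namely the product of the
`R_{j,p} ^ c_j` over the `j` with `w_j = i`. So `L(H^i(X), s)`, for every choice of the auxiliary
primes, is the product of the `L(W_j, s) ^ c_j`, and the question for `X` and `i` has a positive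
answer if it has one for the `W_j` with `w_j = i` and `c_j ≥ 0` for them.

The proof uses parts by helper858, helper750, helper49, helper690, helper263, helper399, helper61,
helper962 (see `Pool.Agent.U707.PT.All`).
-/

set_option autoImplicit false

namespace Pool.Agent.Results.MP_039d94_nt.CountsDetermineFactors

open Polynomial Pool.Agent.U707.PT

/-- **The exact `L`-functions of a variety with known numbers of points.** -/
theorem result {d : ℕ} (H : ∀ (ℓ : ℕ) [Fact ℓ.Prime], Fin (2 * d + 1) → GalRep ℓ) (pts : ℕ → ℤ)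
    (hH : ∀ (ℓ : ℕ) [Fact ℓ.Prime] i, (H ℓ i).IsPure (i : ℕ))
    (hpts : ∀ (ℓ : ℕ) [Fact ℓ.Prime], ∃ B : Set ℕ, B.Finite ∧ ∀ q, q.Prime → q ∉ B → ∀ Q φ,
      Above q Q → IsFrob q Q φ → (pts q : ℚ_[ℓ]) =
        ∑ i : Fin (2 * d + 1), (-1) ^ (i : ℕ) * (H ℓ i).tr φ)
    -- the systems `W_j`
    {κ : Type} [Fintype κ] (W : ∀ (ℓ : ℕ) [Fact ℓ.Prime], κ → GalRep ℓ) (w : κ → ℕ) (c : κ → ℤ)
    (hW : ∀ (ℓ : ℕ) [Fact ℓ.Prime] j, (W ℓ j).IsPure (w j))
    (hcount : ∀ (ℓ : ℕ) [Fact ℓ.Prime], ∃ B : Set ℕ, Thin B ∧ ∀ q, q.Prime → q ∉ B → ∀ Q φ,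
      Above q Q → IsFrob q Q φ → (pts q : ℚ_[ℓ]) = ∑ j, (-1) ^ w j * c j * (W ℓ j).tr φ)
    (R : κ → ℕ → ℚ[X])
    (hloc : ∀ p, p.Prime → ∀ Q φ, Above p Q → IsFrob p Q φ → ∀ (ℓ : ℕ) [Fact ℓ.Prime], ℓ ≠ p →
      ∃ t, IsTame p Q φ t ∧ (∀ i, ∃ N, (H ℓ i).IsMonodromy Q t N) ∧
        ∀ j, (∃ N, (W ℓ j).IsMonodromy Q t N) ∧
          (W ℓ j).IsLocalFactor Q φ ((R j p).map (algebraMap ℚ ℚ_[ℓ])) ∧
          (0 < c j → (W ℓ j).Good p Q φ t (w j)))
    (i : Fin (2 * d + 1)) :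
    ∃ P : ℕ → ℚ[X],
      (∀ p, p.Prime → ∀ Q φ, Above p Q → IsFrob p Q φ → ∀ (ℓ : ℕ) [Fact ℓ.Prime], ℓ ≠ p →
        (H ℓ i).IsLocalFactor Q φ ((P p).map (algebraMap ℚ ℚ_[ℓ])) ∧
        ∃ t, IsTame p Q φ t ∧ (H ℓ i).MonodromyWeight p Q φ t (i : ℕ)) ∧
      (∀ p, p.Prime → P p * ∏ j with w j = i, R j p ^ (-c j).toNat =
        ∏ j with w j = i, R j p ^ (c j).toNat) ∧
      (∀ (σ : ℝ) (L : κ → ℂ → ℂ), (∀ j, w j = i → IsLFunction (R j) σ (L j)) →
        IsLFunction P σ fun s => ∏ j with w j = i, L j s ^ c j) ∧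
      (∀ σ : ℝ, (∀ j, w j = i → HasMeromorphic (R j) σ) → HasMeromorphic P σ) ∧
      ((∀ j, w j = i → 0 ≤ c j ∧ HasExpected (R j) i) → HasExpected P i) := by
  classical
  obtain ⟨P, h1, h2⟩ := glob H W (fun i => ((i : ℕ) : ℤ)) (fun j => (w j : ℤ))
    (fun i => (-1) ^ (i : ℕ)) (fun j => (-1) ^ w j * c j)
    (fun a b hab => Fin.ext (Nat.cast_injective (R := ℤ) hab))
    (fun i => by rw [← pow_add, ← two_mul, pow_mul]; norm_num) hH hW (by
      intro ℓ _
      obtain ⟨B, hB, h⟩ := hpts ℓ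
      obtain ⟨B', hB', h'⟩ := hcount ℓ
      refine ⟨B ∪ B', thin_union (thin_of_finite hB) hB', fun q hq hqB Q φ hQ hφ => ?_⟩
      have e1 := h q hq (fun hh => hqB (Or.inl hh)) Q φ hQ hφ
      have e2 := h' q hq (fun hh => hqB (Or.inr hh)) Q φ hQ hφ
      push_cast
      rw [← e1, ← e2]) R i (by
      intro p hp Q φ hQ hφ ℓ _ hℓ
      obtain ⟨t, ht, hHN, hWj⟩ := hloc p hp Q φ hQ hφ ℓ hℓ
      refine ⟨t, ht, hHN, fun j => ⟨(hWj j).1, (hWj j).2.1, fun hwj hc => (hWj j).2.2 ?_⟩⟩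
      have hwj' : w j = i := by exact_mod_cast hwj
      rw [hwj', ← mul_assoc, ← pow_add, ← two_mul, pow_mul] at hc
      simpa using hc)
  have h3 : ∀ p, p.Prime → P p * ∏ j with w j = i, R j p ^ (-c j).toNat =
      ∏ j with w j = i, R j p ^ (c j).toNat := by
    intro p hp
    have h4 := h2 p hp
    have e0 : (Finset.univ.filter fun j => (w j : ℤ) = ((i : ℕ) : ℤ)) =
        Finset.univ.filter fun j => w j = i := by
      ext j
      simp
    rw [e0] at h4
    have e1 : ∀ j ∈ Finset.univ.filter (fun j => w j = (i : ℕ)),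
        (-1 : ℤ) ^ (i : ℕ) * ((-1) ^ w j * c j) = c j := by
      intro j hj
      rw [(Finset.mem_filter.1 hj).2, ← mul_assoc, ← pow_add, ← two_mul, pow_mul]
      norm_num
    have e2 : ∏ j with w j = (i : ℕ), R j p ^ (-c j).toNat =
        ∏ j with w j = (i : ℕ), R j p ^ (-((-1 : ℤ) ^ (i : ℕ) * ((-1) ^ w j * c j))).toNat :=
      Finset.prod_congr rfl fun j hj => by rw [e1 j hj]
    have e3 : ∏ j with w j = (i : ℕ), R j p ^ (c j).toNat =
        ∏ j with w j = (i : ℕ), R j p ^ ((-1 : ℤ) ^ (i : ℕ) * ((-1) ^ w j * c j)).toNat :=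
      Finset.prod_congr rfl fun j hj => by rw [e1 j hj]
    rw [e2, e3]
    exact h4
  refine ⟨P, h1, h3, fun σ L hL => ?_, fun σ h => ?_, fun h => ?_⟩
  · exact mero_prod _ h3 σ L fun j hj => hL j (Finset.mem_filter.1 hj).2
  · exact hasMeromorphic_of _ h3 σ fun j hj => h j (Finset.mem_filter.1 hj).2
  · exact hasExpected_of _ h3 i (fun j hj => (h j (Finset.mem_filter.1 hj).2).1)
      fun j hj => (h j (Finset.mem_filter.1 hj).2).2

end Pool.Agent.Results.MP_039d94_nt.CountsDetermineFactors
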