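import Pool.Agent.U309.LV.A8

/-!
# Littlewood's bounds on the edge, without any hypothesis, off thin sets of twists and heights

`X` is a smooth projective variety over a number field `K`, for example over `K = ℚ`, and
`L(Hⁱ(X) ⊗ χ, s)` is the Euler product of `Hⁱ(X)` twisted by the Dirichlet character `χ` modulo `q`;
it converges absolutely for `Re s > i/2 + 1` only, and neither its continuation nor a bound for it on the
line `Re s = i/2 + 1` is known in general.

**Theorem.** Let `κ, δ > 0`. Off a set of pairs `(χ, t)`, `χ` modulo `q`, `t ∈ [a, a + H]`, of total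
measure at most `(qH)^{1/κ + δ}`, the boundary value `ℓ` of `L(Hⁱ(X) ⊗ χ, s)` at `i/2 + 1 + it` exists,
it is the value of the product of the Euler factors above the primes `p ≤ (log qH)^κ` up to a factor
`1 + O(δ)`, and `B^{-m} ≤ |ℓ| ≤ B^m`, where `B = (1 + δ) e^γ κ log log qH` and
`m = b_i(X) [K : ℚ]`.

For `κ = 2` this is Littlewood's bound `(2 e^γ + o(1)) log log`, which is known under the Riemann
hypothesis for `ζ(1 + it)` and `L(1, χ)`; here it is proved for all varieties, all `q ≥ 1`, all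
intervals `[a, a + H]`, `H ≥ 1`, at all heights `a`, off a set of measure `(qH)^{1/2 + δ}`. The constants
depend on `κ`, `δ` and a bound for `m` only.

The proof: high moments of sums over the primes in the intervals `[e^k, e^{k+1}]`, a large sieve in
`χ` and `t` together, in windows at arbitrary height (`Pool/Agent/U309/LV`), and the mean square
approximation of the boundary function (`Pool/Agent/TH339/MP`, starting files).

`IsFrobenius`, `edgePoint` and `angle` are defined in `Pool/Agent/TH958/BV/Defs.lean`.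
-/

set_option autoImplicit false

namespace Pool.Agent.Results.MP_039d94_nt.LittlewoodOffThinSets

open NumberField IsDedekindDomain MeasureTheory Filter Topology
open Pool.Agent.TH958.BV

open Classical in
/-- `L_S(Hⁱ(X) ⊗ χ, s)`, the product over the primes `v ∉ S` of `K` of the Euler factors
`∏_j (1 - χ(Nv) α_{v,j} Nv^{-s})⁻¹`, where `α_{v,j}` are the eigenvalues of Frobenius on `Hⁱ(X)`. -/
noncomputable def twistL {K : Type} [Field K] [NumberField K] {N q : ℕ}
    (S : Set (HeightOneSpectrum (𝓞 K))) (α : HeightOneSpectrum (𝓞 K) → Fin N → ℂ)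
    (χ : DirichletCharacter ℂ q) (s : ℂ) : ℂ :=
  ∏' v : HeightOneSpectrum (𝓞 K), if v ∈ S then 1 else
    ∏ j, (1 - χ ((Ideal.absNorm v.asIdeal : ℕ) : ZMod q) * α v j *
      (Ideal.absNorm v.asIdeal : ℂ) ^ (-s))⁻¹

/-- The primes of `K` above the prime numbers `p > y`. -/
def above (K : Type) [Field K] [NumberField K] (y : ℝ) : Set (HeightOneSpectrum (𝓞 K)) :=
  {v | ∃ p f : ℕ, p.Prime ∧ y < p ∧ Ideal.absNorm v.asIdeal = p ^ f}

/-- The bound `(1 + δ) e^γ κ log log Z`. -/
noncomputable def littlewood (κ δ Z : ℝ) : ℝ :=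
  (1 + δ) * (Real.exp Real.eulerMascheroniConstant * (κ * Real.log (Real.log Z)))

/-- **Littlewood's bounds off thin sets.** For every `M` and `κ, δ > 0` there is a `Z₀ > 1` with the
following property. Let `X` be a variety over a number field `K`, `N > 0` the dimension of `Hⁱ(X)`,
`N [K : ℚ] ≤ M`, `S` a set of primes of `K`, and `α_v` the eigenvalues of Frobenius on `Hⁱ(X)` at the
primes `v ∉ S`. Let `q ≥ 1`, `a` real, `H ≥ 1` and `qH ≥ Z₀`. There are sets `E_χ` of real numbers, `χ`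
modulo `q`, the measures of which have the sum at most `(qH)^{1/κ + δ}`, such that for all `χ` and all
`t ∈ [a, a + H]` outside `E_χ` there is `ℓ` with:

1. `L_S(Hⁱ(X) ⊗ χ, s)` tends to `ℓ` as `s` tends to `i/2 + 1 + it` in any angle;
2. `|ℓ / P - 1| ≤ δ`, where `P` is the product at `i/2 + 1 + it` of the Euler factors of
   `L_S(Hⁱ(X) ⊗ χ, s)` above the primes `p ≤ (log qH)^κ`;
3. `B^{-N [K : ℚ]} ≤ |ℓ| ≤ B^{N [K : ℚ]}`, where `B = (1 + δ) e^γ κ log log qH`. -/
theorem result (M : ℕ) (κ δ : ℝ) (hκ : 0 < κ) (hδ : 0 < δ) : ∃ Z₀ : ℝ, 1 < Z₀ ∧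
    ∀ (K : Type) [Field K] [NumberField K] (n : ℕ) (X : Set (MvPolynomial (Fin n) (𝓞 K)))
      (d i N : ℕ) (_ : 0 < N) (_ : N * Module.finrank ℚ K ≤ M)
      (S : Set (HeightOneSpectrum (𝓞 K))) (α : HeightOneSpectrum (𝓞 K) → Fin N → ℂ)
      (_ : ∀ v, v ∉ S → IsFrobenius X d i v (α v))
      (q : ℕ) [NeZero q] (a H : ℝ), 1 ≤ H → Z₀ ≤ q * H →
      ∃ E : DirichletCharacter ℂ q → Set ℝ,
        ∑ χ, volume (E χ) ≤ ENNReal.ofReal ((q * H) ^ (1 / κ + δ)) ∧
        ∀ χ, ∀ t ∈ Set.Icc a (a + H), t ∉ E χ → ∃ ℓ : ℂ,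
          (∀ C : ℝ, Tendsto (twistL S α χ) (𝓝[angle i t C] (edgePoint i t)) (𝓝 ℓ)) ∧
          ‖ℓ / twistL (S ∪ above K ((Real.log (q * H)) ^ κ)) α χ (edgePoint i t) - 1‖ ≤ δ ∧
          (littlewood κ δ (q * H) ^ (N * Module.finrank ℚ K))⁻¹ ≤ ‖ℓ‖ ∧
          ‖ℓ‖ ≤ littlewood κ δ (q * H) ^ (N * Module.finrank ℚ K) := by
  obtain ⟨Z₁, hZ₁, H1⟩ := Pool.Agent.U309.LV.main M hκ hδ
  refine ⟨Z₁, hZ₁, ?_⟩
  intro K _ _ n X d i N hN hNM S α hα q _ a H hH hZ
  have hα' : ∀ v, v ∉ S → ∀ j, ‖α v j‖ = (Pool.Agent.TH339.MP.nm v : ℝ) ^ ((i : ℝ) / 2) := by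
    intro v hv j
    obtain ⟨β, h1, h2, h3⟩ := hα v hv
    refine h2 i (α v j) ?_
    rw [h1]
    exact Multiset.mem_map_of_mem _ (Finset.mem_univ_val j)
  exact H1 K N i hN hNM S α hα' q a H hH hZ

end Pool.Agent.Results.MP_039d94_nt.LittlewoodOffThinSets
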