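import Pool.Agent.U597.EX.Loc

/-!
# One-sided bounds for products of L-functions of varieties on the edge

`X_j` (`j` in a finite set) are projective varieties over number fields `K_j`, and `L_j(s)` is
`L(H^{i_j}(X_j), s + i_j/2)` without the factors at finitely many primes which contain the bad ones, an
Euler product which converges absolutely for `Re s > 1`.  It is not known in general that `L_j`
continues across any point of the edge `Re s = 1`, but it has boundary values `l_j(τ)` at `1 + iτ` for all
real `τ` outside a set of Hausdorff dimension `0`.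

For real exponents `c_j` the theorem is a maximum principle for the product `∏ |L_j|^{c_j}`: a bound
`∏ |l_j(τ)|^{c_j} ≤ e^A` which holds in arbitrarily long windows of the edge, outside subsets whose
proportion tends to `0`, holds almost everywhere on the edge and in the half-plane `Re s > 1`, and it
holds for all products `∏_{p ∈ P} ∏_j |F_{j,p}(s_p)|^{c_j}` of Euler factors with independent variables
`s_p`, `Re s_p ≥ 1`.  Moreover the bound is then two-sided, and `∑ c_j log L_j(s)` extends continuously
to the closed half-plane.  If the bound holds for all `A > 0`, then the product is `1`: no product of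
L-functions of varieties with real exponents is dominated by another one in long windows of the edge,
unless they are equal, factor by factor.  With integral exponents this gives the continuation of one
of the functions from the continuation of the others.

The definitions of `IsFrobenius`, `IsEulerSystem`, `localFactor`, `LFun`, `edgePoint` and `angle` are in
`Pool/Agent/TH958/BV/Defs.lean`, those of `Good`, `above`, `logModulus` and `Continues` in
`Pool/Agent/U597/EW/Defs.lean`, the others in `Pool/Agent/U597/EX/Defs.lean`.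
-/

set_option autoImplicit false

namespace Pool.Agent.Results.MP_039d94_nt.OneSidedBounds

open NumberField IsDedekindDomain MeasureTheory Filter Topology Polynomial
open Pool.Agent.TH958.BV Pool.Agent.U597.EW Pool.Agent.U597.EX

/-- **One-sided bounds on the edge.**  Let `X_j` be projective varieties over number fields `K_j` (`j` in
a finite set), `L_j` the Euler product of `H^{i_j}(X_j)` over the good primes (the factors `B_{j,v}` at the
finitely many other primes are `1`), in the variable in which the edge of absolute convergence is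
`Re s = 1`, and `F_{j,p}` the product of its factors above the prime number `p`.  There are functions `l_j`
on the real line such that:

0. outside a set of Hausdorff dimension `0`, `l_j(τ) ≠ 0` and `L_j(s)` tends to `l_j(τ)` as `s` tends to
   `1 + iτ` in any angle in the half-plane `Re s > 1`;
1. for all real exponents `c_j` and all real `A` the following are equivalent: (a) it is not the case
   that `∏ |l_j|^{c_j} > e^A` on a positive proportion, bounded from below, of all sufficiently long
   windows; (b) `∏ |l_j(τ)|^{c_j} ≤ e^A` for almost all `τ`; (c) `∏ |L_j(s)|^{c_j} ≤ e^A` for `Re s > 1`;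
   (d) `∏_{p ∈ P} ∏_j |F_{j,p}(s_p)|^{c_j} ≤ e^A` for all finite sets `P` of primes and all complex `s_p`,
   `Re s_p ≥ 1`;
2. in this case there is a continuous function `g` on the closed half-plane `Re s ≥ 1`, bounded by
   `A + ∑ |c_j| [K_j : ℚ] N_j`, such that `∑ c_j log |L_j(s)| = Re g(s)` for `Re s > 1` and
   `∑ c_j log |l_j(τ)| = Re g(1 + iτ)` for almost all `τ`;
3. if (a) holds for all `A > 0`, then `∏ |l_j(τ)|^{c_j} = 1` for almost all `τ` and
   `∏ |F_{j,p}(s)|^{c_j} = 1` for all `p` and all `s` with `Re s > 1`;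
4. if the `c_j = m_j` are integers, then the function `g` of 2. satisfies `∏ L_j(s)^{m_j} = exp g(s)` for
   `Re s > 1`;
   and if (a) holds for all `A > 0`, then `∏ F_{j,p}(s)^{m_j} = 1` and `∏ L_j(s)^{m_j} = 1`, and if moreover
   `m_k = ±1` and the `L_j`, `j ≠ k`, have a continuation which is meromorphic at all points of a set `U`
   of complex numbers, then so does `L_k`. -/
theorem result (ι : Type) [Fintype ι] (K : ι → Type) [∀ j, Field (K j)] [∀ j, NumberField (K j)]
    (n : ι → ℕ) (X : ∀ j, Set (MvPolynomial (Fin (n j)) (𝓞 (K j)))) (d i N : ι → ℕ)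
    (B : ∀ j, HeightOneSpectrum (𝓞 (K j)) → ℂ[X])
    (_ : ∀ j, IsEulerSystem (X j) (d j) (i j) (N j) (B j))
    (_ : ∀ (j : ι) (v : HeightOneSpectrum (𝓞 (K j))),
      Good (X j) (d j) (i j) (N j) (B j) v ∨ B j v = 1) :
    ∃ l : ι → ℝ → ℂ,
      (∀ j, ∃ Z : Set ℝ, dimH Z = 0 ∧ ∀ τ : ℝ, τ ∉ Z → l j τ ≠ 0 ∧ ∀ C : ℝ,
        Tendsto (LFun (B j)) (𝓝[angle (i j) τ C] (edgePoint (i j) τ)) (𝓝 (l j τ))) ∧
      (∀ (c : ι → ℝ) (A : ℝ),
        (¬ OftenAbove A (logModulus c l) ↔ ∀ᵐ u : ℝ, logModulus c l u ≤ A) ∧
        (¬ OftenAbove A (logModulus c l) ↔ ∀ s : ℂ, 1 < s.re → logProduct B i c s ≤ A) ∧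
        (¬ OftenAbove A (logModulus c l) ↔
          ∀ (P : Finset Nat.Primes) (w : Nat.Primes → ℂ), (∀ p, 1 ≤ (w p).re) →
            ∑ p ∈ P, logLocal B i c p (w p) ≤ A) ∧
        (¬ OftenAbove A (logModulus c l) → ∃ g : ℂ → ℂ, ContinuousOn g {s : ℂ | 1 ≤ s.re} ∧
          (∀ s : ℂ, 1 ≤ s.re → ‖g s‖ ≤ A + size K N c) ∧
          (∀ s : ℂ, 1 < s.re → logProduct B i c s = (g s).re) ∧
          (∀ᵐ u : ℝ, logModulus c l u = (g (1 + u * Complex.I)).re) ∧
          ∀ m : ι → ℤ, (∀ j, c j = m j) → ∀ s : ℂ, 1 < s.re →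
            ∏ j, LFun (B j) (s + (i j : ℂ) / 2) ^ m j = Complex.exp (g s))) ∧
      (∀ c : ι → ℝ, (∀ A : ℝ, 0 < A → ¬ OftenAbove A (logModulus c l)) →
        (∀ᵐ u : ℝ, logModulus c l u = 0) ∧
        ∀ (p : Nat.Primes) (s : ℂ), 1 < s.re →
          ∏ j, ‖above (B j) p (s + (i j : ℂ) / 2)‖ ^ c j = 1) ∧
      ∀ m : ι → ℤ,
        (∀ A : ℝ, 0 < A → ¬ OftenAbove A (logModulus (fun j => (m j : ℝ)) l)) →
        (∀ s : ℂ, 1 < s.re → (∀ p : Nat.Primes, ∏ j, above (B j) p (s + (i j : ℂ) / 2) ^ m j = 1) ∧
          ∏ j, LFun (B j) (s + (i j : ℂ) / 2) ^ m j = 1) ∧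
        ∀ (U : Set ℂ) (k : ι), m k = 1 ∨ m k = -1 →
          (∀ j, j ≠ k → Continues (B j) (i j) U) → Continues (B k) (i k) U := by
  rename_i hB hg
  have hzero : ∀ c : ι → ℝ, (∀ A : ℝ, 0 < A → ¬ OftenAbove A
      (logModulus c fun j => Pool.Agent.N881.RP.bdry (hB j))) →
      ∀ x, comb (bj hB) c x = 0 := by
    intro c h
    refine zero_of_nonpos hB c hg fun s hs => ?_
    refine le_of_forall_pos_le_add fun ε hε => ?_
    rw [zero_add]
    exact (bounds hB c hg ε).2.1 (h ε hε) s hs
  refine ⟨fun j => Pool.Agent.N881.RP.bdry (hB j),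
    fun j => Pool.Agent.N881.RP.bdry_angle (hB j), fun c A => ?_, fun c h => ?_, fun m h => ?_⟩
  · obtain ⟨h1, h2⟩ := bounds hB c hg A
    refine ⟨h1, h2, h2.trans (local_iff hB c hg A), fun h => ?_⟩
    obtain ⟨e1, e2, e3⟩ := extend hB c hg (h2.1 h)
    refine ⟨_, e1, e2, fun s hs => logProduct_eq hB c hg hs, e3, fun m hm s hs => ?_⟩
    have hcm : c = fun j => (m j : ℝ) := funext hm
    rw [hcm]
    exact product_exp hB hg m hs
  · have h0 := hzero c h
    refine ⟨?_, fun p s hs => euler_relation hB c hg h0 p hs⟩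
    have h1 : ∀ s : ℂ, 1 < s.re → logProduct B i c s ≤ 0 := by
      intro s hs
      rw [logProduct_eq hB c hg hs, FF_zero hB c h0, Complex.zero_re]
    filter_upwards [(extend hB c hg h1).2.2] with u hu
    rw [hu, FF_zero hB c h0, Complex.zero_re]
  · have h0 := hzero _ h
    have h1 : ∀ s : ℂ, 1 < s.re → ∏ j, LFun (B j) (s + (i j : ℂ) / 2) ^ m j = 1 := by
      intro s hs
      rw [product_exp hB hg m hs, FF_zero hB _ h0, Complex.exp_zero]
    exact ⟨fun s hs => ⟨fun p => euler_relation_int hB hg m h0 p hs, h1 s hs⟩,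
      fun U k hk hc => continues_of_product hB hg h1 hk hc⟩

end Pool.Agent.Results.MP_039d94_nt.OneSidedBounds
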