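import Pool.Agent.U597.EW.Fin

/-!
# Multiplicative relations between L-functions of varieties, and windows of the edge

`X_j` (`j` in a finite set) are projective varieties over number fields `K_j`, and `L_j(s)` is
`L(H^{i_j}(X_j), s + i_j/2)`, an Euler product which converges absolutely for `Re s > 1`.  It is not known
in general that `L_j` continues across any point of the edge `Re s = 1`, but it has boundary values
`l_j(τ)` at `1 + iτ` for all real `τ` outside a set of Hausdorff dimension `0`.  The theorem says that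
the absolute values `|l_j(τ)|` for `τ` in arbitrarily long intervals, anywhere on the edge, determine
the Euler factors at all primes outside a finite set, and determine all multiplicative relations
`∏ |L_j|^{c_j} = 1` between them, with real exponents; and that the continuation of one of the
functions follows from a relation of this kind in long windows and from the continuation of the
others.

The definitions of `IsFrobenius`, `IsEulerSystem`, `localFactor`, `LFun`, `edgePoint` and `angle` are in
`Pool/Agent/TH958/BV/Defs.lean`, the others in `Pool/Agent/U597/EW/Defs.lean`.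
-/

set_option autoImplicit false

namespace Pool.Agent.Results.MP_039d94_nt.WindowsOfTheEdge

open NumberField IsDedekindDomain MeasureTheory Filter Topology Polynomial
open Pool.Agent.TH958.BV Pool.Agent.U597.EW

/-- **Windows of the edge.**  Let `X_j` be projective varieties over number fields `K_j` (`j` in a finite
set), `L_j` the L-function of `H^{i_j}(X_j)`, with the factors at the finitely many bad primes arbitrary
polynomials `≠ 0` with algebraic coefficients, and `S` a finite set of prime numbers such that all bad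
primes lie above the elements of `S`.  There are functions `l_j` on the real line with the following
properties.

0. Outside a set of Hausdorff dimension `0`, `l_j(τ) ≠ 0` and `L_j(s)` tends to `l_j(τ)` as `s` tends to
   `i_j/2 + 1 + iτ` in any angle in the half-plane `Re s > i_j/2 + 1`.
1. For all real exponents `c_j` the following are equivalent.
   (a) For every `ε > 0` there are arbitrarily long windows `[t, t + T]` in which `∑ c_j log |l_j(τ)|`
   is, with mean error at most `ε`, a sum of functions `h_p(τ)`, `p ∈ S`, with the periods `2π / log p`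
   (for example `0`), which may depend on the window.
   (b) `∑ c_j log |l_j(τ)|` is almost everywhere on the real line a sum of functions `h_p(τ)`, `p ∈ S`,
   with the periods `2π / log p`.
   (c) For all prime numbers `p` not in `S`, the Euler factors `F_{j,p}(s) = ∏_{v | p} L_{j,v}(s + i_j/2)`
   satisfy `∏ |F_{j,p}(s)|^{c_j} = 1` for all `s` with `Re s > 1`.
2. Suppose that these conditions hold and that the `c_j = m_j` are integers.  Then
   (a) `∏ F_{j,p}(s)^{m_j} = 1` for all `p` not in `S`, and
   `∏ L_j(s + i_j/2)^{m_j} = ∏_j ∏_{p ∈ S} F_{j,p}(s)^{m_j}`, for all `s` with `Re s > 1`;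
   (b) if the Euler factors at the bad primes have no poles to the right of the edge, if `m_k = ±1`, and
   if the `L_j(s + i_j/2)` for `j ≠ k` have a continuation which is meromorphic at all points of a set
   `U` of complex numbers (for example `U = ℂ`), then so does `L_k(s + i_k/2)`. -/
theorem result (ι : Type) [Fintype ι] (K : ι → Type) [∀ j, Field (K j)] [∀ j, NumberField (K j)]
    (n : ι → ℕ) (X : ∀ j, Set (MvPolynomial (Fin (n j)) (𝓞 (K j)))) (d i N : ι → ℕ)
    (B : ∀ j, HeightOneSpectrum (𝓞 (K j)) → ℂ[X])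
    (_ : ∀ j, IsEulerSystem (X j) (d j) (i j) (N j) (B j)) (S : Finset Nat.Primes)
    (_ : ∀ (j : ι) (v : HeightOneSpectrum (𝓞 (K j))), ¬ Good (X j) (d j) (i j) (N j) (B j) v →
      ∃ p ∈ S, ((p : ℕ) : 𝓞 (K j)) ∈ v.asIdeal) :
    ∃ l : ι → ℝ → ℂ,
      (∀ j, ∃ Z : Set ℝ, dimH Z = 0 ∧ ∀ τ : ℝ, τ ∉ Z → l j τ ≠ 0 ∧ ∀ C : ℝ,
        Tendsto (LFun (B j)) (𝓝[angle (i j) τ C] (edgePoint (i j) τ)) (𝓝 (l j τ))) ∧
      (∀ c : ι → ℝ,
        (Windows S (logModulus c l) ↔ Everywhere S (logModulus c l)) ∧
        (Windows S (logModulus c l) ↔ ∀ p ∉ S, ∀ s : ℂ, 1 < s.re →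
          ∏ j, ‖above (B j) p (s + (i j : ℂ) / 2)‖ ^ c j = 1)) ∧
      ∀ m : ι → ℤ, Windows S (logModulus (fun j => (m j : ℝ)) l) →
        (∀ s : ℂ, 1 < s.re →
          (∀ p ∉ S, ∏ j, above (B j) p (s + (i j : ℂ) / 2) ^ m j = 1) ∧
          ∏ j, LFun (B j) (s + (i j : ℂ) / 2) ^ m j =
            ∏ j, ∏ p ∈ S, above (B j) p (s + (i j : ℂ) / 2) ^ m j) ∧
        ((∀ (j : ι) (v : HeightOneSpectrum (𝓞 (K j))) (s : ℂ), (i j : ℝ) / 2 + 1 < s.re →
            (B j v).eval ((Ideal.absNorm v.asIdeal : ℂ) ^ (-s)) ≠ 0) →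
          ∀ (U : Set ℂ) (k : ι), m k = 1 ∨ m k = -1 →
            (∀ j, j ≠ k → Continues (B j) (i j) U) → Continues (B k) (i k) U) := by
  rename_i hB hS
  have hbad : allBad hB ⊆ S := by
    classical
    intro p hp
    unfold allBad at hp
    rw [Finset.mem_biUnion] at hp
    obtain ⟨j, _, hp⟩ := hp
    unfold badP at hp
    rw [Finset.mem_image] at hp
    obtain ⟨v, hv, rfl⟩ := hp
    obtain ⟨q, hq, hqv⟩ := hS j v (Pool.Agent.R409.EV.not_good_of_mem (hB j) hv)
    rw [mem_iff_pr] at hqv
    rw [hqv]
    exact hq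
  have hgood : ∀ p ∉ S, ∀ s : ℂ, 1 < s.re → ∀ j, above (B j) p (s + (i j : ℂ) / 2) ≠ 0 := by
    intro p hp s hs j
    rw [above_good hB j (fun h => hp (hbad (badP_sub hB j h))) hs.le]
    exact Complex.exp_ne_zero _
  have hlog : ∀ (c : ι → ℝ) (p : Nat.Primes), p ∉ S → ∀ s : ℂ, 1 < s.re →
      (∏ j, ‖above (B j) p (s + (i j : ℂ) / 2)‖ ^ c j = 1 ↔
        hper (B := B) (i := i) c p s = 0) := by
    intro c p hp s hs
    have h1 : ∀ j, 0 < ‖above (B j) p (s + (i j : ℂ) / 2)‖ := fun j =>
      norm_pos_iff.2 (hgood p hp s hs j)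
    have h2 : ∏ j, ‖above (B j) p (s + (i j : ℂ) / 2)‖ ^ c j =
        Real.exp (hper (B := B) (i := i) c p s) := by
      unfold hper
      rw [Real.exp_sum]
      refine Finset.prod_congr rfl fun j _ => ?_
      rw [Real.rpow_def_of_pos (h1 j), mul_comm]
    rw [h2, Real.exp_eq_one_iff]
  have hE : ∀ c : ι → ℝ, (∀ p ∉ S, ∀ s : ℂ, 1 < s.re →
      ∏ j, ‖above (B j) p (s + (i j : ℂ) / 2)‖ ^ c j = 1) →
      Everywhere S (logModulus c fun j => Pool.Agent.N881.RP.bdry (hB j)) := by
    intro c h
    refine ⟨fun p u => hper (B := B) (i := i) c p (1 + u * Complex.I),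
      fun p _ => ⟨hper_measurable c p, hper_periodic c p⟩, ?_⟩
    exact everywhere_of_euler hB c hbad fun p hp s hs => (hlog c p hp s hs).1 (h p hp s hs)
  have hW : ∀ Φ : ℝ → ℝ, Everywhere S Φ → Windows S Φ := by
    rintro Φ ⟨h, hh, hae⟩ ε hε R
    refine ⟨0, max R 1, le_max_left _ _, lt_of_lt_of_le one_pos (le_max_right _ _), h, hh, ?_⟩
    have h1 : ∫⁻ u in Set.Icc (0 : ℝ) (0 + max R 1), ENNReal.ofReal |Φ u - ∑ p ∈ S, h p u| = 0 := by
      rw [lintegral_congr_ae (g := fun _ => 0)]
      · simp
      · refine ae_restrict_of_ae ?_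
        filter_upwards [hae] with u hu
        rw [hu, sub_self, abs_zero, ENNReal.ofReal_zero]
    rw [h1]
    exact zero_le
  have hC : ∀ c : ι → ℝ, Windows S (logModulus c fun j => Pool.Agent.N881.RP.bdry (hB j)) →
      ∀ p ∉ S, ∀ s : ℂ, 1 < s.re → ∏ j, ‖above (B j) p (s + (i j : ℂ) / 2)‖ ^ c j = 1 := by
    intro c hw p hp s hs
    rw [hlog c p hp s hs]
    exact euler_of_windows hB c hw hp (fun h => hp (hbad h)) hs.le
  refine ⟨fun j => Pool.Agent.N881.RP.bdry (hB j),
    fun j => Pool.Agent.N881.RP.bdry_angle (hB j), fun c => ⟨⟨fun hw => hE c (hC c hw), hW _⟩,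
      ⟨hC c, fun h => hW _ (hE c h)⟩⟩, fun m hw => ⟨fun s hs => product_formula hB hbad hw hs,
      fun hfin U k hk hc => continues_of hB hbad hw hfin hk hc⟩⟩

end Pool.Agent.Results.MP_039d94_nt.WindowsOfTheEdge
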